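import Pool.Agent.H121.SH.IfM
import Pool.Agent.H337.SH.Sch

/-! SM-BA: the fractional moments off resonant sites. -/

set_option autoImplicit false

open scoped BigOperators InnerProductSpace Topology ENNReal
open Filter MeasureTheory

namespace Pool.Agent.H23.SH

open Pool.Agent.Y662.TR (LL dv dv_ne dv_self)
open Pool.Agent.H121.UE (rk)
open Pool.Agent.H121.SH (Grf GR S_measR S_bA fa faA)
open Pool.Agent.H337.SH (gr_pt gr_0r)

theorem rpow_sum_le {α : Type} (F : Finset α) (a : α → ℝ≥0∞) {s : ℝ} (hs0 : 0 < s) (hs1 : s ≤ 1) :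
    (∑ i ∈ F, a i) ^ s ≤ ∑ i ∈ F, a i ^ s := by
  classical
  induction F using Finset.induction_on with
  | empty => simp [ENNReal.zero_rpow_of_pos hs0]
  | insert i F hi ih =>
    rw [Finset.sum_insert hi, Finset.sum_insert hi]
    exact (ENNReal.rpow_add_le_add_rpow _ _ hs0.le hs1).trans (add_le_add le_rfl ih)

variable {ι : Type} {K : ℕ} {t : ι → ι → ℝ} {N : ι → Finset ι}

theorem enorm_rk_le (h : Grf K t N) (Ω : Set ι) (x w : ι) : ‖((rk Ω t x w : ℝ) : ℂ)‖ₑ ≤ 1 := by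
  rw [← ofReal_norm_eq_enorm, Complex.norm_real]
  refine ENNReal.ofReal_le_one.2 ?_
  unfold rk
  split_ifs
  · exact h.le x w
  · rw [norm_zero]; exact zero_le_one

open Classical in
/-- the pointwise bound -/
theorem pt_bound (h : Grf K t N) (Ω : Set ι) (V : ι → ℝ) {z : ℂ} (hz : z.im ≠ 0) {s δ : ℝ}
    (hs0 : 0 < s) (hs1 : s ≤ 1) (hδ : 0 < δ) (x y : ι) (hV : δ ≤ |V x - z.re|) :
    ‖GR t V Ω z x y‖ₑ ^ s ≤ ENNReal.ofReal (δ ^ (-s)) * ((if y = x then 1 else 0) +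
      ∑ u ∈ N x, ‖GR t V Ω z u y‖ₑ ^ s) := by
  by_cases hy : y ∈ Ω
  · have e := gr_pt h Ω V hz hy x
    have e2 : (((V x : ℝ) : ℂ) - z) * GR t V Ω z x y =
        dv y x - ∑ w ∈ N x, ((rk Ω t x w : ℝ) : ℂ) * GR t V Ω z w y := by
      rw [← e]; ring
    have h1 : δ ≤ ‖((V x : ℝ) : ℂ) - z‖ := by
      refine hV.trans ?_
      have := Complex.abs_re_le_norm (((V x : ℝ) : ℂ) - z)
      simpa using this
    have h2 : ENNReal.ofReal δ ≤ ‖((V x : ℝ) : ℂ) - z‖ₑ := by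
      rw [← ofReal_norm_eq_enorm]; exact ENNReal.ofReal_le_ofReal h1
    have hdv : ‖(dv y : LL ι) x‖ₑ ≤ (if y = x then 1 else 0) := by
      split_ifs with hyx
      · rw [← hyx, dv_self]; simp
      · rw [dv_ne (fun he => hyx he.symm)]; simp
    have h3 : ENNReal.ofReal δ * ‖GR t V Ω z x y‖ₑ ≤ (if y = x then 1 else 0) +
        ∑ u ∈ N x, ‖GR t V Ω z u y‖ₑ := by
      calc ENNReal.ofReal δ * ‖GR t V Ω z x y‖ₑ
          ≤ ‖((V x : ℝ) : ℂ) - z‖ₑ * ‖GR t V Ω z x y‖ₑ := mul_le_mul_left h2 _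
        _ = ‖dv y x - ∑ w ∈ N x, ((rk Ω t x w : ℝ) : ℂ) * GR t V Ω z w y‖ₑ := by
            rw [← enorm_mul, e2]
        _ ≤ ‖(dv y : LL ι) x‖ₑ + ‖∑ w ∈ N x, ((rk Ω t x w : ℝ) : ℂ) * GR t V Ω z w y‖ₑ :=
            enorm_sub_le
        _ ≤ (if y = x then 1 else 0) + ∑ u ∈ N x, ‖GR t V Ω z u y‖ₑ := by
            refine add_le_add hdv ?_
            refine (enorm_sum_le _ _).trans (Finset.sum_le_sum fun u _ => ?_)
            rw [enorm_mul]
            calc _ ≤ 1 * ‖GR t V Ω z u y‖ₑ := mul_le_mul_left (enorm_rk_le h Ω x u) _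
              _ = _ := one_mul _
    have h4 : (ENNReal.ofReal δ) ^ s * ‖GR t V Ω z x y‖ₑ ^ s ≤ (if y = x then 1 else 0) +
        ∑ u ∈ N x, ‖GR t V Ω z u y‖ₑ ^ s := by
      rw [← ENNReal.mul_rpow_of_nonneg _ _ hs0.le]
      refine (ENNReal.rpow_le_rpow h3 hs0.le).trans ?_
      refine (ENNReal.rpow_add_le_add_rpow _ _ hs0.le hs1).trans ?_
      refine add_le_add ?_ (rpow_sum_le _ _ hs0 hs1)
      split_ifs
      · simp
      · simp [ENNReal.zero_rpow_of_pos hs0]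
    have h5 : ENNReal.ofReal (δ ^ (-s)) * (ENNReal.ofReal δ) ^ s = 1 := by
      rw [ENNReal.ofReal_rpow_of_pos hδ, ← ENNReal.ofReal_mul (by positivity), ← Real.rpow_add hδ]
      simp
    calc ‖GR t V Ω z x y‖ₑ ^ s
        = ENNReal.ofReal (δ ^ (-s)) * ((ENNReal.ofReal δ) ^ s * ‖GR t V Ω z x y‖ₑ ^ s) := by
          rw [← mul_assoc, h5, one_mul]
      _ ≤ _ := mul_le_mul_right h4 _
  · rw [gr_0r t V Ω z x hy, enorm_zero, ENNReal.zero_rpow_of_pos hs0]
    exact zero_le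

/-- **SM-BA.** -/
theorem bA (hm : S_measR) : S_bA := by
  classical
  intro lam s δ hs0 hs1 hδ μ _ A hA ι _ K t N h Ω z x y hz hx hV
  have hmeas : ∀ u v, Measurable fun ω : ι → ℝ => ‖GR t (fun p => lam * ω p) Ω z u v‖ₑ ^ s :=
    fun u v => ((hm ι K t N h lam Ω z u v hz.ne').enorm).pow_const s
  unfold faA fa
  calc ∫⁻ ω, {ω : ι → ℝ | ω x ∈ Aᶜ}.indicator
        (fun ω => ‖GR t (fun p => lam * ω p) Ω z x y‖ₑ ^ s) ω ∂(Measure.infinitePi fun _ : ι => μ)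
      ≤ ∫⁻ ω, ENNReal.ofReal (δ ^ (-s)) * ((if y = x then 1 else 0) +
          ∑ u ∈ N x, ‖GR t (fun p => lam * ω p) Ω z u y‖ₑ ^ s)
          ∂(Measure.infinitePi fun _ : ι => μ) := by
        refine lintegral_mono fun ω => ?_
        by_cases hω : ω ∈ {ω : ι → ℝ | ω x ∈ Aᶜ}
        · rw [Set.indicator_of_mem hω]
          exact pt_bound h Ω (fun p => lam * ω p) hz.ne' hs0 hs1 hδ x y (hV (ω x) hω)
        · rw [Set.indicator_of_notMem hω]
          exact zero_le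
    _ = _ := by
        rw [lintegral_const_mul' _ _ ENNReal.ofReal_ne_top, lintegral_add_left measurable_const,
          lintegral_const, measure_univ, mul_one, lintegral_finsetSum _ (fun u _ => hmeas u y)]

end Pool.Agent.H23.SH
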